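import Pool.Agent.H29Z.Jam.Main

/-!
# MP_585e0c_gt: exponentially large jammed kissing configurations exist (Q1, hence Q2)

For `n = 2 ^ k` take a long chain of orthonormal frames, each obtained from the previous one by
random signs followed by a Hadamard gate on one bit. The root systems `D_n` in every second frame
are pairwise compatible (Hoeffding bound), consecutive ones share a basis, and `D_n` is jammed.
-/

set_option autoImplicit false

namespace Pool.Agent.Results.MP_585e0c_gt.ExpJammed

open Pool.Agent.H29Z.Jam

theorem result : ∃ c : ℝ, 1 < c ∧ {n : ℕ | ∃ C : Finset (EuclideanSpace ℝ (Fin n)),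
    IsKissing C ∧ IsJammed C ∧ c ^ n ≤ (C.card : ℝ)}.Infinite :=
  main

end Pool.Agent.Results.MP_585e0c_gt.ExpJammed
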